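import Pool.Agent.H9.Tour

namespace Pool.Agent.Results.MP_665821_co.Exists

/-- `T a b` means the arc `a → b`. -/
def IsTournament {N : ℕ} (T : Fin N → Fin N → Prop) : Prop :=
  (∀ a, ¬ T a a) ∧ ∀ a b, a ≠ b → (T a b ↔ ¬ T b a)

/-- Isomorphic to the transitive tournament. -/
def IsTransitive {N : ℕ} (T : Fin N → Fin N → Prop) : Prop :=
  ∃ σ : Equiv.Perm (Fin N), ∀ a b, T a b ↔ σ a < σ b

/-- A directed path (distinct vertices, consecutive ones joined by an arc) that misses some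
colour; `c a b` is the colour of the arc `a → b`. -/
def AvoidPath {N q : ℕ} (T : Fin N → Fin N → Prop) (c : Fin N → Fin N → Fin q)
    (p : List (Fin N)) : Prop :=
  p.Nodup ∧ ∃ k : Fin q, p.IsChain fun a b => T a b ∧ c a b ≠ k

/-- The largest number of vertices of a colour-avoiding directed path. -/
noncomputable def longest {N q : ℕ} (T : Fin N → Fin N → Prop) (c : Fin N → Fin N → Fin q) : ℕ :=
  sSup {m : ℕ | ∃ p, AvoidPath T c p ∧ p.length = m}

/-- `f_{q,q-1}(N)`. -/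
noncomputable def f (q N : ℕ) : ℕ :=
  sInf {m : ℕ | ∃ c : Fin N → Fin N → Fin q, longest (fun a b => a < b) c = m}

def arc (a b : Fin 10) : Bool :=
  if (a = 1 ∧ b = 3) ∨ (a = 6 ∧ b = 8) then false
  else if (a = 3 ∧ b = 1) ∨ (a = 8 ∧ b = 6) then true else decide (a < b)

def col : Fin 10 → Fin 10 → Fin 4 :=
  ![![0, 0, 3, 1, 0, 1, 2, 0, 0, 2],
    ![0, 0, 3, 0, 3, 2, 2, 2, 2, 1],
    ![3, 3, 0, 1, 1, 2, 2, 2, 2, 1],
    ![1, 0, 1, 0, 0, 2, 2, 2, 2, 0],
    ![0, 3, 1, 0, 0, 2, 2, 2, 2, 2],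
    ![1, 2, 2, 2, 2, 0, 0, 1, 3, 2],
    ![2, 2, 2, 2, 2, 0, 0, 1, 0, 1],
    ![0, 2, 2, 2, 2, 1, 1, 0, 3, 3],
    ![0, 2, 2, 2, 2, 3, 0, 3, 0, 0],
    ![2, 1, 1, 0, 2, 2, 1, 3, 0, 0]]

def can (k : Fin 4) : ℕ → Fin 10 → List (Fin 10) → Bool
  | 0, _, _ => true
  | n + 1, v, vis => (List.finRange 10).any fun w =>
      arc v w && col v w != k && !vis.contains w && can k n w (w :: vis)

lemma can_of (k : Fin 4) (p : List (Fin 10)) : ∀ (n : ℕ) (v : Fin 10) (vis : List (Fin 10)),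
    n ≤ p.length → p.Nodup → (∀ x ∈ p, x ∉ vis) →
    (v :: p).IsChain (fun a b => arc a b = true ∧ col a b ≠ k) → can k n v vis = true := by
  induction p with
  | nil => intro n v vis hn _ _ _; obtain rfl : n = 0 := by simpa using hn
           rfl
  | cons w p ih =>
    intro n v vis hn hd hv hc
    cases n with
    | zero => rfl
    | succ n =>
      rw [List.isChain_cons_cons] at hc
      rw [List.nodup_cons] at hd
      simp only [can, List.any_eq_true, Bool.and_eq_true, bne_iff_ne, Bool.not_eq_true',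
        List.contains_eq_mem, decide_eq_false_iff_not]
      refine ⟨w, List.mem_finRange w, ⟨⟨hc.1.1, hc.1.2⟩, hv w List.mem_cons_self⟩,
        ih n w _ (by simpa using hn) hd.2 (fun x hx hx' => ?_) hc.2⟩
      rcases List.mem_cons.1 hx' with rfl | h
      · exact hd.1 hx
      · exact hv x (List.mem_cons_of_mem _ hx) h

lemma cannot : ∀ k v, can k 6 v [v] = false := by decide +kernel

lemma upper : longest (fun a b => arc a b = true) col ≤ 6 := by
  apply csSup_le'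
  rintro m ⟨p, ⟨hd, k, hc⟩, rfl⟩
  by_contra h
  cases p with
  | nil => simp at h
  | cons v p =>
    rw [List.nodup_cons] at hd
    have := can_of k p 6 v [v] (by simp only [List.length_cons] at h; omega) hd.2
      (fun x hx hx' => hd.1 (by rwa [List.mem_singleton.1 hx'] at hx)) hc
    rw [cannot] at this
    cases this

lemma lower (c : Fin 10 → Fin 10 → Fin 4) : 7 ≤ longest (fun a b => a < b) c := by
  by_contra hlt
  let c' : ℕ → ℕ → ℕ := fun a b => if h : a < 10 ∧ b < 10 then c ⟨a, h.1⟩ ⟨b, h.2⟩ else 0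
  apply Pool.Agent.H9.Tour.no_good c'
  intro k hk l hl hc
  apply hlt
  apply le_csSup
  · refine ⟨10, ?_⟩
    rintro m ⟨p, hp, rfl⟩
    simpa using hp.1.length_le_card
  match l, hl, hc with
  | [a0, a1, a2, a3, a4, a5, a6], _, hc =>
    simp only [List.isChain_cons_cons] at hc
    obtain ⟨h1, h2, h3, h4, h5, h6, -⟩ := hc
    have e : ∀ a b (ha : a < 10) (hb : b < 10), c' a b ≠ k → c ⟨a, ha⟩ ⟨b, hb⟩ ≠ ⟨k, hk⟩ := by
      intro a b ha hb h1 h2
      apply h1
      simp only [c', dif_pos (And.intro ha hb), h2]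
    refine ⟨[⟨a0, by omega⟩, ⟨a1, by omega⟩, ⟨a2, by omega⟩, ⟨a3, by omega⟩, ⟨a4, by omega⟩,
      ⟨a5, by omega⟩, ⟨a6, by omega⟩], ⟨?_, ⟨k, hk⟩, ?_⟩, rfl⟩
    · simp only [List.nodup_cons, List.mem_cons, Fin.mk.injEq, List.not_mem_nil, List.nodup_nil,
        or_false, not_false_eq_true, and_true, not_or]
      omega
    · simp only [List.isChain_cons_cons, Fin.mk_lt_mk]
      exact ⟨⟨h1.1, e _ _ _ _ h1.2.2⟩, ⟨h2.1, e _ _ _ _ h2.2.2⟩, ⟨h3.1, e _ _ _ _ h3.2.2⟩,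
        ⟨h4.1, e _ _ _ _ h4.2.2⟩, ⟨h5.1, e _ _ _ _ h5.2.2⟩, ⟨h6.1, e _ _ _ _ h6.2.2⟩,
        List.IsChain.singleton _⟩

theorem result : ∃ (T : Fin 10 → Fin 10 → Prop) (c : Fin 10 → Fin 10 → Fin 4),
    IsTournament T ∧ ¬ IsTransitive T ∧ longest T c ≤ 6 ∧ 7 ≤ f 4 10 ∧ longest T c < f 4 10 := by
  have h : 7 ≤ f 4 10 := by
    unfold f
    refine le_csInf ⟨_, fun _ _ => 0, rfl⟩ ?_
    rintro m ⟨c, rfl⟩
    exact lower c
  refine ⟨fun a b => arc a b = true, col, ⟨by decide, by decide⟩, ?_, upper, h,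
    by have := upper; omega⟩
  rintro ⟨σ, hσ⟩
  have h1 := (hσ 1 2).1 (by decide)
  have h2 := (hσ 2 3).1 (by decide)
  have h3 := (hσ 3 1).1 (by decide)
  exact lt_irrefl _ (h1.trans (h2.trans h3))

end Pool.Agent.Results.MP_665821_co.Exists
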